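import Pool.Agent.Lead.UB.Defs

namespace Pool.Agent.Helper43.UB

open Finset Pool.Agent.Lead.UB

section

variable {N t : ℕ} {η : ℝ} {B C : Finset (Fin N)} {A : Fin t → Finset (Fin N)}

/-- real cardinality -/
noncomputable def rc (S : Finset (Fin N)) : ℝ := (#S : ℝ)

theorem halves_iff {S T : Finset (Fin N)} : Halves η S T ↔
    |rc (Sᶜ ∩ T) - rc T / 2| ≤ η * N := Iff.rfl

theorem pair_bound (h : TypicalBook η B C A) (i j : Fin t) (hij : i ≠ j) :
    |rc (cap A {i, j}) - N / 2| ≤ 5 * η * N := by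
  obtain ⟨h1, h2, h3, h4⟩ := h
  -- X = B^c C^c A_i^c A_j^c
  have a1 := h1 {i, j} (by rw [card_pair hij]; omega)
  have a2 := h2 i {j} (by simp) (by simpa using hij)
  have a3 := h3 j ∅ (by simp) (by simp)
  rw [halves_iff] at a1 a2 a3
  have e1 : (B ∪ C)ᶜ ∩ cap A {i, j} = (A i ∪ B)ᶜ ∩ (cap A {j} ∩ Cᶜ) := by
    ext v; simp [cap]; tauto
  have e2 : cap A {j} ∩ Cᶜ = (A j ∪ C)ᶜ ∩ cap A ∅ := by
    ext v; simp [cap]
  have e3 : rc (cap A (∅ : Finset (Fin t))) = N := by
    have : cap A (∅ : Finset (Fin t)) = univ := by ext v; simp [cap]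
    rw [this]; simp [rc]
  rw [e1] at a1
  rw [← e2, e3] at a3
  rw [abs_le] at *
  constructor <;> linarith [a1.1, a1.2, a2.1, a2.2, a3.1, a3.2]

theorem four_bound (h : TypicalBook η B C A) (i j k l : Fin t) (hij : i ≠ j) (hik : i ≠ k)
    (hil : i ≠ l) (hjk : j ≠ k) (hjl : j ≠ l) (hkl : k ≠ l) :
    |rc (cap A {i, j, k, l}) - N / 4| ≤ 9 * η * N := by
  have hp := pair_bound h k l hkl
  obtain ⟨h1, h2, h3, h4⟩ := h
  have a1 := h1 {i, j, k, l} (by
    refine le_trans (card_insert_le _ _) ?_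
    have := card_insert_le j ({k, l} : Finset (Fin t))
    have := card_pair hkl
    omega)
  have a2 := h2 i {j, k, l} (by
    refine le_trans (card_insert_le _ _) ?_
    have := card_pair hkl
    omega) (by simp [hij, hik, hil])
  have a3 := h3 j {k, l} (by rw [card_pair hkl]) (by simp [hjk, hjl])
  rw [halves_iff] at a1 a2 a3
  have e1 : (B ∪ C)ᶜ ∩ cap A {i, j, k, l} = (A i ∪ B)ᶜ ∩ (cap A {j, k, l} ∩ Cᶜ) := by
    ext v; simp [cap]; tauto
  have e2 : cap A {j, k, l} ∩ Cᶜ = (A j ∪ C)ᶜ ∩ cap A {k, l} := by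
    ext v; simp [cap]; tauto
  rw [e1] at a1
  rw [← e2] at a3
  rw [abs_le] at *
  constructor <;> linarith [a1.1, a1.2, a2.1, a2.2, a3.1, a3.2, hp.1, hp.2]

theorem single_bound (h : TypicalBook η B C A) (i : Fin t) :
    |rc (cap A {i}) - rc Bᶜ| ≤ 4 * η * N ∧ |rc Cᶜ - rc Bᶜ| ≤ 4 * η * N := by
  obtain ⟨h1, h2, h3, h4⟩ := h
  have a1 := h1 {i} (by simp)
  have a2 := h2 i ∅ (by simp) (by simp)
  have a4 := h4 i
  rw [halves_iff] at a1 a2 a4
  have e1 : (B ∪ C)ᶜ ∩ cap A {i} = (A i ∪ C)ᶜ ∩ Bᶜ := by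
    ext v; simp [cap]; tauto
  have e2 : (A i ∪ B)ᶜ ∩ (cap A ∅ ∩ Cᶜ) = (A i ∪ C)ᶜ ∩ Bᶜ := by
    ext v; simp [cap]; tauto
  have e3 : rc (cap A ∅ ∩ Cᶜ) = rc Cᶜ := by
    congr 1; ext v; simp [cap]
  rw [e1] at a1
  rw [e2, e3] at a2
  rw [abs_le] at a1 a2 a4
  refine ⟨abs_le.2 ⟨?_, ?_⟩, abs_le.2 ⟨?_, ?_⟩⟩ <;>
    linarith [a1.1, a1.2, a2.1, a2.2, a4.1, a4.2]

theorem union_bound (h : TypicalBook η B C A) : |rc (B ∪ C) - N / 2| ≤ η * N := by
  obtain ⟨h1, h2, h3, h4⟩ := h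
  have a1 := h1 ∅ (by simp)
  rw [halves_iff] at a1
  have e1 : (B ∪ C)ᶜ ∩ cap A ∅ = (B ∪ C)ᶜ := by ext v; simp [cap]
  have e3 : rc (cap A (∅ : Finset (Fin t))) = N := by
    have : cap A (∅ : Finset (Fin t)) = univ := by ext v; simp [cap]
    rw [this]; simp [rc]
  have e4 : rc (B ∪ C)ᶜ = N - rc (B ∪ C) := by
    unfold rc
    rw [card_compl, Fintype.card_fin, Nat.cast_sub]
    have := card_le_univ (B ∪ C)
    rwa [Fintype.card_fin] at this
  rw [e1, e3, e4] at a1
  rw [abs_le] at *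
  constructor <;> linarith [a1.1, a1.2]

theorem rc_le (S : Finset (Fin N)) : rc S ≤ N := by
  have := card_le_univ S
  rw [Fintype.card_fin] at this
  unfold rc; exact_mod_cast this

theorem rc_nonneg (S : Finset (Fin N)) : 0 ≤ rc S := Nat.cast_nonneg _

/-- indicator of `v ∉ A i` -/
noncomputable def fi (A : Fin t → Finset (Fin N)) (v : Fin N) (i : Fin t) : ℝ :=
  if v ∉ A i then 1 else 0

theorem rc_sum (S : Finset (Fin N)) : rc S = ∑ v, if v ∈ S then (1 : ℝ) else 0 := by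
  simp [rc]

theorem sum1 (i : Fin t) : ∑ v, fi A v i = rc (cap A {i}) := by
  rw [rc_sum]
  refine Finset.sum_congr rfl fun v _ => ?_
  simp [fi, cap]

theorem sum2 (i j : Fin t) : ∑ v, fi A v i * fi A v j = rc (cap A {i, j}) := by
  rw [rc_sum]
  refine Finset.sum_congr rfl fun v _ => ?_
  simp only [fi, cap, mem_filter, mem_univ, true_and, mem_insert, mem_singleton,
    forall_eq_or_imp, forall_eq]
  by_cases h1 : v ∈ A i <;> by_cases h2 : v ∈ A j <;> simp [h1, h2]

theorem sum4 (i j k l : Fin t) : ∑ v, fi A v i * fi A v j * (fi A v k * fi A v l) =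
    rc (cap A {i, j, k, l}) := by
  rw [rc_sum]
  refine Finset.sum_congr rfl fun v _ => ?_
  simp only [fi, cap, mem_filter, mem_univ, true_and, mem_insert, mem_singleton,
    forall_eq_or_imp, forall_eq]
  by_cases h1 : v ∈ A i <;> by_cases h2 : v ∈ A j <;> by_cases h3 : v ∈ A k <;>
    by_cases h4 : v ∈ A l <;> simp [h1, h2, h3, h4]

/-- second moment -/
theorem moment2 (h : TypicalBook η B C A) (hη : 0 ≤ η) :
    (t : ℝ) ^ 2 * (N * (1 / 2 - 5 * η)) - t * N ≤ ∑ v, (∑ i, fi A v i) ^ 2 := by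
  have e : ∑ v, (∑ i, fi A v i) ^ 2 = ∑ i, ∑ j, rc (cap A {i, j}) := by
    simp only [sq, Finset.sum_mul_sum]
    rw [Finset.sum_comm]
    refine Finset.sum_congr rfl fun i _ => ?_
    rw [Finset.sum_comm]
    exact Finset.sum_congr rfl fun j _ => sum2 i j
  rw [e]
  have h1 : ∀ i j : Fin t, (N : ℝ) * (1 / 2 - 5 * η) - (if i = j then (N : ℝ) else 0) ≤
      rc (cap A {i, j}) := by
    intro i j
    by_cases hij : i = j
    · rw [if_pos hij]
      have := rc_nonneg (cap A {i, j})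
      have hN : (0 : ℝ) ≤ N := Nat.cast_nonneg _
      nlinarith [mul_nonneg hN hη]
    · rw [if_neg hij]
      have := (abs_le.1 (pair_bound h i j hij)).1
      linarith
  calc (t : ℝ) ^ 2 * (N * (1 / 2 - 5 * η)) - t * N
      = ∑ i : Fin t, ∑ j : Fin t, ((N : ℝ) * (1 / 2 - 5 * η) - (if i = j then (N : ℝ) else 0)) := by
        simp only [Finset.sum_sub_distrib, Finset.sum_const, Finset.card_univ, Fintype.card_fin,
          nsmul_eq_mul, Finset.sum_ite_eq, Finset.mem_univ, if_true]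
        ring
    _ ≤ _ := Finset.sum_le_sum fun i _ => Finset.sum_le_sum fun j _ => h1 i j

/-- fourth moment -/
theorem moment4 (h : TypicalBook η B C A) (hη : 0 ≤ η) :
    ∑ v, (∑ i, fi A v i) ^ 4 ≤ (t : ℝ) ^ 4 * (N * (1 / 4 + 9 * η)) + 6 * t ^ 3 * N := by
  have e : ∑ v, (∑ i, fi A v i) ^ 4 = ∑ i, ∑ k, ∑ j, ∑ l, rc (cap A {i, j, k, l}) := by
    have e1 : ∀ v, (∑ i, fi A v i) ^ 4 =
        ∑ i, ∑ k, ∑ j, ∑ l, fi A v i * fi A v j * (fi A v k * fi A v l) := by
      intro v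
      have : (∑ i, fi A v i) ^ 4 = ((∑ i, fi A v i) * ∑ i, fi A v i) *
        ((∑ i, fi A v i) * ∑ i, fi A v i) := by ring
      rw [this]
      simp only [Finset.sum_mul_sum]
    simp only [e1]
    rw [Finset.sum_comm]
    refine Finset.sum_congr rfl fun i _ => ?_
    rw [Finset.sum_comm]
    refine Finset.sum_congr rfl fun k _ => ?_
    rw [Finset.sum_comm]
    refine Finset.sum_congr rfl fun j _ => ?_
    rw [Finset.sum_comm]
    exact Finset.sum_congr rfl fun l _ => sum4 i j k l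
  rw [e]
  have hN : (0 : ℝ) ≤ N := Nat.cast_nonneg _
  have h1 : ∀ i j k l : Fin t, rc (cap A {i, j, k, l}) ≤ (N : ℝ) * (1 / 4 + 9 * η) +
      ((if i = j then (N : ℝ) else 0) + (if i = k then (N : ℝ) else 0) +
      (if i = l then (N : ℝ) else 0) + (if j = k then (N : ℝ) else 0) +
      (if j = l then (N : ℝ) else 0) + (if k = l then (N : ℝ) else 0)) := by
    intro i j k l
    have h0 : ∀ a b : Fin t, 0 ≤ (if a = b then (N : ℝ) else 0) := by
      intro a b; split_ifs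
      · exact hN
      · exact le_rfl
    have hle := rc_le (cap A {i, j, k, l})
    have hb : 0 ≤ (N : ℝ) * (1 / 4 + 9 * η) := by positivity
    by_cases hij : i = j
    · have := h0 i k; have := h0 i l; have := h0 j k; have := h0 j l; have := h0 k l
      rw [if_pos hij]; linarith
    by_cases hik : i = k
    · have := h0 i j; have := h0 i l; have := h0 j k; have := h0 j l; have := h0 k l
      rw [if_pos hik]; linarith
    by_cases hil : i = l
    · have := h0 i j; have := h0 i k; have := h0 j k; have := h0 j l; have := h0 k l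
      rw [if_pos hil]; linarith
    by_cases hjk : j = k
    · have := h0 i j; have := h0 i k; have := h0 i l; have := h0 j l; have := h0 k l
      rw [if_pos hjk]; linarith
    by_cases hjl : j = l
    · have := h0 i j; have := h0 i k; have := h0 i l; have := h0 j k; have := h0 k l
      rw [if_pos hjl]; linarith
    by_cases hkl : k = l
    · have := h0 i j; have := h0 i k; have := h0 i l; have := h0 j k; have := h0 j l
      rw [if_pos hkl]; linarith
    have := (abs_le.1 (four_bound h i j k l hij hik hil hjk hjl hkl)).2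
    rw [if_neg hij, if_neg hik, if_neg hil, if_neg hjk, if_neg hjl, if_neg hkl]
    linarith
  calc ∑ i, ∑ k, ∑ j, ∑ l, rc (cap A {i, j, k, l})
      ≤ ∑ i : Fin t, ∑ k : Fin t, ∑ j : Fin t, ∑ l : Fin t, ((N : ℝ) * (1 / 4 + 9 * η) +
      ((if i = j then (N : ℝ) else 0) + (if i = k then (N : ℝ) else 0) +
      (if i = l then (N : ℝ) else 0) + (if j = k then (N : ℝ) else 0) +
      (if j = l then (N : ℝ) else 0) + (if k = l then (N : ℝ) else 0))) :=
        Finset.sum_le_sum fun i _ => Finset.sum_le_sum fun k _ => Finset.sum_le_sum fun j _ =>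
          Finset.sum_le_sum fun l _ => h1 i j k l
    _ = _ := by
      simp only [Finset.sum_add_distrib, Finset.sum_const, Finset.card_univ, Fintype.card_fin,
          nsmul_eq_mul, Finset.sum_ite_eq, Finset.sum_ite_eq', Finset.mem_univ, if_true,
          ← Finset.mul_sum]
      ring

end

theorem book_core (ε : ℝ) (hε : 0 < ε) (η : ℝ) (hη : 0 < η) (t : ℕ) (ht : 0 < t)
    (h1 : 30 * η ≤ ε) (h2 : 14 * η + 7 / t ≤ (ε / 8) ^ 2) (N : ℕ) (hN : 0 < N)
    (B C : Finset (Fin N)) (A : Fin t → Finset (Fin N)) (h : TypicalBook η B C A) :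
    QuasiRandom ε B C := by
  have hN' : (0 : ℝ) < N := by exact_mod_cast hN
  have ht' : (0 : ℝ) < t := by exact_mod_cast ht
  set lam : ℝ := ε / 8 with hlam
  have hlam0 : 0 < lam := by positivity
  set al : Fin N → ℝ := fun v => (∑ i, fi A v i) / t with hal
  have hal0 : ∀ v, 0 ≤ al v := by
    intro v
    apply div_nonneg _ ht'.le
    apply Finset.sum_nonneg
    intro i _
    unfold fi; split_ifs <;> norm_num
  have m2 : (N : ℝ) * (1 / 2 - 5 * η - 1 / t) ≤ ∑ v, al v ^ 2 := by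
    have := moment2 h hη.le
    simp only [hal, div_pow]
    rw [← Finset.sum_div, le_div_iff₀ (by positivity)]
    refine le_trans (le_of_eq ?_) this
    field_simp
  have m4 : ∑ v, al v ^ 4 ≤ (N : ℝ) * (1 / 4 + 9 * η + 6 / t) := by
    have := moment4 h hη.le
    simp only [hal, div_pow]
    rw [← Finset.sum_div, div_le_iff₀ (by positivity)]
    refine le_trans this (le_of_eq ?_)
    field_simp
  have m1 : |∑ v, al v - rc Bᶜ| ≤ 4 * η * N := by
    have e : ∑ v, al v = (∑ i, rc (cap A {i})) / t := by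
      simp only [hal]
      rw [← Finset.sum_div, Finset.sum_comm]
      congr 1
      exact Finset.sum_congr rfl fun i _ => sum1 i
    rw [e]
    have e2 : (∑ i, rc (cap A {i})) / t - rc Bᶜ = (∑ i : Fin t, (rc (cap A {i}) - rc Bᶜ)) / t := by
      rw [Finset.sum_sub_distrib, Finset.sum_const, Finset.card_univ, Fintype.card_fin,
        nsmul_eq_mul]
      field_simp
    rw [e2, abs_div, abs_of_pos ht', div_le_iff₀ ht']
    calc |∑ i : Fin t, (rc (cap A {i}) - rc Bᶜ)| ≤ ∑ i : Fin t, |rc (cap A {i}) - rc Bᶜ| :=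
          Finset.abs_sum_le_sum_abs _ _
      _ ≤ ∑ i : Fin t, 4 * η * N := Finset.sum_le_sum fun i _ => (single_bound h i).1
      _ = 4 * η * N * t := by
        rw [Finset.sum_const, Finset.card_univ, Fintype.card_fin, nsmul_eq_mul]; ring
  -- variance
  have hvar : ∑ v, (al v ^ 2 - 1 / 2) ^ 2 ≤ N * lam ^ 2 := by
    have e : ∑ v, (al v ^ 2 - 1 / 2) ^ 2 = ∑ v, al v ^ 4 - ∑ v, al v ^ 2 + N / 4 := by
      have e1 : ∀ v, (al v ^ 2 - 1 / 2) ^ 2 = al v ^ 4 - al v ^ 2 + 1 / 4 := by intro v; ring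
      simp only [e1]
      rw [Finset.sum_add_distrib, Finset.sum_sub_distrib, Finset.sum_const, Finset.card_univ,
        Fintype.card_fin, nsmul_eq_mul]
      ring
    rw [e]
    have h3 : (N : ℝ) * (14 * η + 7 / t) ≤ N * lam ^ 2 := by gcongr
    have h4 : (N : ℝ) * (1 / 4 + 9 * η + 6 / t) - N * (1 / 2 - 5 * η - 1 / t) + N / 4 =
        N * (14 * η + 7 / t) := by ring
    linarith
  have hs2 : √2 * √2 = 2 := Real.mul_self_sqrt (by norm_num)
  have hs0 : 0 < √2 := by positivity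
  have hs1 : √2 ≤ 1.4143 := by
    rw [show (1.4143 : ℝ) = √(1.4143 ^ 2) by rw [Real.sqrt_sq (by norm_num)]]
    exact Real.sqrt_le_sqrt (by norm_num)
  have hsl : 1.4142 ≤ √2 := by
    rw [show (1.4142 : ℝ) = √(1.4142 ^ 2) by rw [Real.sqrt_sq (by norm_num)]]
    exact Real.sqrt_le_sqrt (by norm_num)
  have hinv : 1 / √2 = √2 / 2 := by
    rw [div_eq_div_iff hs0.ne' (by norm_num)]; linarith
  -- pointwise
  have hpt : ∀ v, |al v - √2 / 2| ≤ √2 * (lam / 2 + (al v ^ 2 - 1 / 2) ^ 2 / (2 * lam)) := by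
    intro v
    have e1 : al v ^ 2 - 1 / 2 = (al v - √2 / 2) * (al v + √2 / 2) := by
      nlinarith
    have e2 : |al v ^ 2 - 1 / 2| = |al v - √2 / 2| * (al v + √2 / 2) := by
      rw [e1, abs_mul, abs_of_nonneg (a := al v + √2 / 2) (by have := hal0 v; positivity)]
    have e3 : |al v - √2 / 2| ≤ √2 * |al v ^ 2 - 1 / 2| := by
      rw [e2]
      have h5 := abs_nonneg (al v - √2 / 2)
      have h6 : 1 ≤ √2 * (al v + √2 / 2) := by
        have := mul_nonneg hs0.le (hal0 v)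
        nlinarith
      calc |al v - √2 / 2| = |al v - √2 / 2| * 1 := (mul_one _).symm
        _ ≤ |al v - √2 / 2| * (√2 * (al v + √2 / 2)) := by gcongr
        _ = _ := by ring
    refine le_trans e3 ?_
    gcongr
    have h7 : 0 ≤ (|al v ^ 2 - 1 / 2| - lam) ^ 2 := sq_nonneg _
    have h8 : (al v ^ 2 - 1 / 2) ^ 2 = |al v ^ 2 - 1 / 2| ^ 2 := (sq_abs _).symm
    rw [h8]
    have h9 : lam / 2 + |al v ^ 2 - 1 / 2| ^ 2 / (2 * lam) - |al v ^ 2 - 1 / 2| =
        (|al v ^ 2 - 1 / 2| - lam) ^ 2 / (2 * lam) := by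
      field_simp
      ring
    have h10 : 0 ≤ (|al v ^ 2 - 1 / 2| - lam) ^ 2 / (2 * lam) := by positivity
    linarith
  have hmean : |∑ v, al v - N * (√2 / 2)| ≤ √2 * lam * N := by
    have e : ∑ v, al v - N * (√2 / 2) = ∑ v, (al v - √2 / 2) := by
      rw [Finset.sum_sub_distrib, Finset.sum_const, Finset.card_univ, Fintype.card_fin,
        nsmul_eq_mul]
    rw [e]
    calc |∑ v, (al v - √2 / 2)| ≤ ∑ v, |al v - √2 / 2| := Finset.abs_sum_le_sum_abs _ _
      _ ≤ ∑ v, √2 * (lam / 2 + (al v ^ 2 - 1 / 2) ^ 2 / (2 * lam)) :=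
          Finset.sum_le_sum fun v _ => hpt v
      _ = √2 * (N * (lam / 2) + (∑ v, (al v ^ 2 - 1 / 2) ^ 2) / (2 * lam)) := by
          rw [← Finset.mul_sum, Finset.sum_add_distrib, Finset.sum_const, Finset.card_univ,
            Fintype.card_fin, nsmul_eq_mul, Finset.sum_div]
      _ ≤ √2 * (N * (lam / 2) + (N * lam ^ 2) / (2 * lam)) := by gcongr
      _ = √2 * lam * N := by field_simp; ring
  have hcompl : ∀ S : Finset (Fin N), rc Sᶜ = N - rc S := by
    intro S
    unfold rc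
    rw [card_compl, Fintype.card_fin, Nat.cast_sub]
    have := card_le_univ S
    rwa [Fintype.card_fin] at this
  have hC := (single_bound h ⟨0, ht⟩).2
  have hU := union_bound h
  have hint : rc (B ∪ C) + rc (B ∩ C) = rc B + rc C := by
    unfold rc; exact_mod_cast card_union_add_card_inter B C
  rw [hcompl] at m1
  rw [hcompl, hcompl] at hC
  have hsl' : √2 * lam * N ≤ 1.4143 * lam * N := by gcongr
  have hεN : 30 * (η * N) ≤ ε * N := by nlinarith
  have hlN : lam * N = ε * N / 8 := by rw [hlam]; ring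
  rw [abs_le] at m1 hmean hC hU
  have hB1 : |rc B - (1 - √2 / 2) * N| ≤ 0.32 * (ε * N) := by
    rw [abs_le]
    constructor <;> linarith [m1.1, m1.2, hmean.1, hmean.2]
  have hC1 : |rc C - (1 - √2 / 2) * N| ≤ 0.46 * (ε * N) := by
    rw [abs_le] at hB1 ⊢
    constructor <;> linarith [hB1.1, hB1.2, hC.1, hC.2]
  have hεN0 : 0 ≤ ε * N := by positivity
  rw [abs_le] at hB1 hC1
  refine ⟨?_, ?_, ?_⟩
  · change |rc B - (1 - 1 / √2) * N| ≤ ε * N
    rw [hinv, abs_le]
    constructor <;> linarith [hB1.1, hB1.2]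
  · change |rc C - (1 - 1 / √2) * N| ≤ ε * N
    rw [hinv, abs_le]
    constructor <;> linarith [hC1.1, hC1.2]
  · change |rc (B ∩ C) - (3 / 2 - √2) * N| ≤ ε * N
    rw [abs_le]
    constructor <;> linarith [hB1.1, hB1.2, hC1.1, hC1.2, hU.1, hU.2]

theorem stmtBook : StmtBook := by
  intro ε hε
  set η : ℝ := min (ε / 30) (ε ^ 2 / 2000) with hη
  have hη0 : 0 < η := by rw [hη]; positivity
  obtain ⟨t, ht⟩ := exists_nat_gt (max 1 (1000 / ε ^ 2))
  have ht1 : (1 : ℝ) < t := lt_of_le_of_lt (le_max_left _ _) ht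
  have ht2 : 1000 / ε ^ 2 < t := lt_of_le_of_lt (le_max_right _ _) ht
  refine ⟨η, hη0, t, ?_⟩
  intro N hN B C A h
  refine book_core ε hε η hη0 t (by exact_mod_cast (by linarith : (0 : ℝ) < t)) ?_ ?_ N hN B C A h
  · have := min_le_left (ε / 30) (ε ^ 2 / 2000)
    rw [← hη] at this; linarith
  · have h1 := min_le_right (ε / 30) (ε ^ 2 / 2000)
    rw [← hη] at h1
    have h2 : 7 / (t : ℝ) ≤ 7 * ε ^ 2 / 1000 := by
      rw [div_lt_iff₀ (by positivity)] at ht2
      rw [div_le_div_iff₀ (by linarith) (by norm_num)]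
      nlinarith
    have h3 : 0 < ε ^ 2 := by positivity
    nlinarith

end Pool.Agent.Helper43.UB
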