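import Pool.Agent.Lead.UB.Defs

namespace Pool.Agent.Helper43.UB

open Finset Pool.Agent.Lead.UB

open scoped Classical in
theorem stmtCheb : StmtCheb := by
  intro N T η hη hN
  set x : Fin N → Finset (Fin N) → ℝ := fun v S => if v ∈ S then -1 / 2 else 1 / 2 with hx
  have h1 : ∀ S : Finset (Fin N), (#(Sᶜ ∩ T) : ℝ) - #T / 2 = ∑ v ∈ T, x v S := by
    intro S
    have e1 : (#(Sᶜ ∩ T) : ℝ) = ∑ v ∈ T, if v ∈ S then (0 : ℝ) else 1 := by
      rw [Finset.sum_ite, Finset.sum_const_zero, zero_add, Finset.sum_const, nsmul_eq_mul, mul_one]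
      congr 2
      ext v
      simp [and_comm]
    have e2 : (#T : ℝ) / 2 = ∑ v ∈ T, (1 / 2 : ℝ) := by
      rw [Finset.sum_const, nsmul_eq_mul]; ring
    rw [e1, e2, ← Finset.sum_sub_distrib]
    refine Finset.sum_congr rfl fun v _ => ?_
    simp only [hx]
    split_ifs <;> norm_num
  have hdiag : ∀ v, ∑ S : Finset (Fin N), x v S * x v S = 2 ^ N / 4 := by
    intro v
    have : ∀ S : Finset (Fin N), x v S * x v S = 1 / 4 := by
      intro S; simp only [hx]; split_ifs <;> norm_num
    simp only [this]
    rw [Finset.sum_const, nsmul_eq_mul, Finset.card_univ, Fintype.card_finset, Fintype.card_fin]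
    push_cast; ring
  have hoff : ∀ v w, v ≠ w → ∑ S : Finset (Fin N), x v S * x w S = 0 := by
    intro v w hvw
    refine Finset.sum_involution (fun S _ => symmDiff S {v}) ?_ ?_ ?_ ?_
    · intro S _
      have e1 : x w (symmDiff S {v}) = x w S := by
        simp only [hx]
        have : w ∈ symmDiff S {v} ↔ w ∈ S := by
          simp only [Finset.mem_symmDiff, Finset.mem_singleton]
          constructor
          · rintro (h | h)
            · exact h.1
            · exact absurd h.1 (Ne.symm hvw)
          · intro h; exact Or.inl ⟨h, Ne.symm hvw⟩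
        simp only [this]
      have e2 : x v (symmDiff S {v}) = - x v S := by
        simp only [hx]
        by_cases h : v ∈ S
        · have : v ∉ symmDiff S {v} := by simp [Finset.mem_symmDiff, h]
          simp only [h, this, if_true, if_false]; norm_num
        · have : v ∈ symmDiff S {v} := by simp [Finset.mem_symmDiff, h]
          simp only [h, this, if_true, if_false]; norm_num
      rw [e1, e2]; ring
    · intro S _ _ hS
      have : v ∈ symmDiff S {v} ↔ v ∈ S := by rw [hS]
      simp [Finset.mem_symmDiff] at this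
    · intro S _; exact Finset.mem_univ _
    · intro S _
      exact symmDiff_symmDiff_cancel_right _ _
  have hsum : ∑ S : Finset (Fin N), ((#(Sᶜ ∩ T) : ℝ) - #T / 2) ^ 2 = (#T : ℝ) * (2 ^ N / 4) := by
    have e : ∀ S : Finset (Fin N), ((#(Sᶜ ∩ T) : ℝ) - #T / 2) ^ 2 =
        ∑ v ∈ T, ∑ w ∈ T, x v S * x w S := by
      intro S
      rw [h1, sq, Finset.sum_mul_sum]
    simp only [e]
    rw [Finset.sum_comm]
    have : ∀ v ∈ T, ∑ S : Finset (Fin N), ∑ w ∈ T, x v S * x w S = 2 ^ N / 4 := by
      intro v hv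
      rw [Finset.sum_comm]
      rw [Finset.sum_eq_single_of_mem v hv]
      · exact hdiag v
      · intro w _ hw
        exact hoff v w (Ne.symm hw)
    rw [Finset.sum_congr rfl this, Finset.sum_const, nsmul_eq_mul]
  have hT : (#T : ℝ) ≤ N := by
    have := Finset.card_le_univ T
    rw [Fintype.card_fin] at this
    exact_mod_cast this
  have hN' : (0 : ℝ) < N := by exact_mod_cast hN
  have hbad : (#{S : Finset (Fin N) | ¬ Halves η S T} : ℝ) * (η * N) ^ 2 ≤
      ∑ S : Finset (Fin N), ((#(Sᶜ ∩ T) : ℝ) - #T / 2) ^ 2 := by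
    calc (#{S : Finset (Fin N) | ¬ Halves η S T} : ℝ) * (η * N) ^ 2
        = ∑ S ∈ univ.filter (fun S : Finset (Fin N) => ¬ Halves η S T), (η * N) ^ 2 := by
          rw [Finset.sum_const, nsmul_eq_mul]
      _ ≤ ∑ S ∈ univ.filter (fun S : Finset (Fin N) => ¬ Halves η S T),
          ((#(Sᶜ ∩ T) : ℝ) - #T / 2) ^ 2 := by
          refine Finset.sum_le_sum fun S hS => ?_
          rw [Finset.mem_filter] at hS
          have h := hS.2
          unfold Halves at h
          push Not at h
          rw [← sq_abs ((#(Sᶜ ∩ T) : ℝ) - #T / 2)]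
          have : 0 < η * N := by positivity
          gcongr
      _ ≤ _ := Finset.sum_le_sum_of_subset_of_nonneg (Finset.subset_univ _)
          (fun _ _ _ => sq_nonneg _)
  rw [hsum] at hbad
  rw [le_div_iff₀ (by positivity)]
  have h3 : (#T : ℝ) * (2 ^ N / 4) ≤ N * (2 ^ N / 4) := by gcongr
  have h4 : (#{S : Finset (Fin N) | ¬ Halves η S T} : ℝ) * (4 * η ^ 2 * N) * (N / 4) ≤
      2 ^ N * (N / 4) := by nlinarith
  exact le_of_mul_le_mul_right h4 (by positivity)

end Pool.Agent.Helper43.UB
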