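import Pool.Agent.Lead.UB.Defs

namespace Pool.Agent.Helper43.UB

open Finset Pool.Agent.Lead.UB

theorem stmtCount : StmtCount := by
  intro V _ _ R _ hsym hirr δ hδ t hE
  set m : ℝ := (Fintype.card V : ℝ) with hm
  have hm0 : 0 ≤ m := by positivity
  set E : Finset (V × V) := {p : V × V | R p.1 p.2} with hEdef
  set deg : V → ℕ := fun x => #{z : V | R z x} with hdeg
  set co : V × V → ℕ := fun p => #{z : V | R z p.1 ∧ R z p.2} with hco
  -- the number of books
  have hbooks : (#{q : (V × V) × (Fin t → V) | R q.1.1 q.1.2 ∧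
        ∀ i, R (q.2 i) q.1.1 ∧ R (q.2 i) q.1.2} : ℝ) = ∑ p ∈ E, (co p : ℝ) ^ t := by
    have h1 : #{q : (V × V) × (Fin t → V) | R q.1.1 q.1.2 ∧
        ∀ i, R (q.2 i) q.1.1 ∧ R (q.2 i) q.1.2} = ∑ p ∈ E, (co p) ^ t := by
      rw [Finset.card_filter, Fintype.sum_prod_type, hEdef, Finset.sum_filter]
      refine Finset.sum_congr rfl fun p _ => ?_
      by_cases hp : R p.1 p.2
      · simp only [hp, true_and, if_true]
        rw [← Finset.card_filter]
        have : (univ.filter fun A : Fin t → V => ∀ i, R (A i) p.1 ∧ R (A i) p.2) =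
            Fintype.piFinset (fun _ : Fin t => univ.filter fun z : V => R z p.1 ∧ R z p.2) := by
          ext A
          simp [Fintype.mem_piFinset]
        rw [this, Fintype.card_piFinset]
        simp [hco]
      · simp [hp]
    rw [h1]; push_cast; rfl
  rw [hbooks]
  clear_value E deg co m
  rcases eq_or_lt_of_le hm0 with h0 | hmpos
  · rw [← h0, zero_pow (by omega), mul_zero]
    exact Finset.sum_nonneg fun p _ => pow_nonneg (Nat.cast_nonneg _) _
  have hEcard : m ^ 2 / 2 ≤ #E := by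
    have : m ^ 2 * (1 / 2 + 2 * δ) = m ^ 2 / 2 + 2 * δ * m ^ 2 := by ring
    have h2 : 0 ≤ 2 * δ * m ^ 2 := by positivity
    linarith
  have hEpos : (0 : ℝ) < #E := lt_of_lt_of_le (by positivity) hEcard
  -- degrees
  have hdegsum : (#E : ℝ) = ∑ x, (deg x : ℝ) := by
    have : #E = ∑ x, deg x := by
      rw [hEdef, Finset.card_filter, Fintype.sum_prod_type, Finset.sum_comm]
      refine Finset.sum_congr rfl fun x _ => ?_
      rw [← Finset.card_filter]
      simp only [hdeg]
    rw [this]; push_cast; rfl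
  have hco1 : ∀ p : V × V, (deg p.1 : ℝ) + deg p.2 - m ≤ co p := by
    intro p
    have h1 : deg p.1 + deg p.2 ≤ Fintype.card V + co p := by
      have := Finset.card_union_add_card_inter (univ.filter fun z : V => R z p.1)
        (univ.filter fun z : V => R z p.2)
      rw [← Finset.filter_and] at this
      have h2 := Finset.card_le_univ ((univ.filter fun z : V => R z p.1) ∪
        (univ.filter fun z : V => R z p.2))
      simp only [hdeg, hco]
      omega
    have h2 : (deg p.1 : ℝ) + deg p.2 ≤ m + co p := by rw [hm]; exact_mod_cast h1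
    linarith
  have hs1 : ∑ p ∈ E, (deg p.2 : ℝ) = ∑ x, (deg x : ℝ) ^ 2 := by
    rw [hEdef, Finset.sum_filter, Fintype.sum_prod_type, Finset.sum_comm]
    refine Finset.sum_congr rfl fun x _ => ?_
    simp only
    rw [← Finset.sum_filter, Finset.sum_const, nsmul_eq_mul, sq]
    simp only [hdeg]
  have hs2 : ∑ p ∈ E, (deg p.1 : ℝ) = ∑ x, (deg x : ℝ) ^ 2 := by
    rw [hEdef, Finset.sum_filter, Fintype.sum_prod_type]
    refine Finset.sum_congr rfl fun x _ => ?_
    simp only
    rw [← Finset.sum_filter, Finset.sum_const, nsmul_eq_mul, sq]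
    congr 2
    simp only [hdeg]
    congr 1
    ext z
    simp only [mem_filter, mem_univ, true_and]
    exact ⟨hsym _ _, hsym _ _⟩
  have hcs : (#E : ℝ) ^ 2 ≤ m * ∑ x, (deg x : ℝ) ^ 2 := by
    rw [hdegsum, hm]
    have := sq_sum_le_card_mul_sum_sq (s := (univ : Finset V)) (f := fun x => (deg x : ℝ))
    rw [Finset.card_univ] at this
    exact this
  have hcosum : (#E : ℝ) * (4 * δ * m) ≤ ∑ p ∈ E, (co p : ℝ) := by
    have h1 : ∑ p ∈ E, ((deg p.1 : ℝ) + deg p.2 - m) ≤ ∑ p ∈ E, (co p : ℝ) :=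
      Finset.sum_le_sum fun p _ => hco1 p
    rw [Finset.sum_sub_distrib, Finset.sum_add_distrib, hs1, hs2, Finset.sum_const,
      nsmul_eq_mul] at h1
    refine le_trans ?_ h1
    have h3 : (#E : ℝ) * (4 * δ * m) + #E * m ≤ 2 * ∑ x, (deg x : ℝ) ^ 2 := by
      have h4 : m * ((#E : ℝ) * (4 * δ * m) + #E * m) ≤ m * (2 * ∑ x, (deg x : ℝ) ^ 2) := by
        have h5 : m * ((#E : ℝ) * (4 * δ * m) + #E * m) = 2 * (#E * (m ^ 2 * (1 / 2 + 2 * δ))) := by
          ring
        rw [h5]
        have h6 : (#E : ℝ) * (m ^ 2 * (1 / 2 + 2 * δ)) ≤ #E * #E := by gcongr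
        nlinarith
      exact le_of_mul_le_mul_left h4 hmpos
    linarith
  cases t with
  | zero =>
    simp only [pow_zero, Finset.sum_const, nsmul_eq_mul, mul_one]
    have : (1 : ℝ) / 2 * m ^ (0 + 2) = m ^ 2 / 2 := by ring
    rw [this]; exact hEcard
  | succ k =>
    have hj := pow_sum_div_card_le_sum_pow (s := E) (f := fun p => (co p : ℝ))
      (fun _ _ => Nat.cast_nonneg _) k
    refine le_trans ?_ hj
    rw [le_div_iff₀ (by positivity)]
    calc (4 * δ) ^ (k + 1) / 2 * m ^ (k + 1 + 2) * (#E : ℝ) ^ k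
        = (m ^ 2 / 2) * (#E : ℝ) ^ k * (4 * δ * m) ^ (k + 1) := by ring
      _ ≤ (#E : ℝ) * (#E : ℝ) ^ k * (4 * δ * m) ^ (k + 1) := by gcongr
      _ = ((#E : ℝ) * (4 * δ * m)) ^ (k + 1) := by ring
      _ ≤ (∑ p ∈ E, (co p : ℝ)) ^ (k + 1) := by gcongr

end Pool.Agent.Helper43.UB
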