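import Pool.Agent.Lead.UB.Defs

namespace Pool.Agent.Helper43.UB

open Finset Pool.Agent.Lead.UB

theorem qr_symm {N : ℕ} {ε : ℝ} {A B : Finset (Fin N)} (h : QuasiRandom ε A B) :
    QuasiRandom ε B A := by
  obtain ⟨h1, h2, h3⟩ := h
  exact ⟨h2, h1, by rwa [inter_comm]⟩

open scoped Classical in
theorem stmtMain : StmtCheb → StmtBook → StmtCount → StmtBad → StmtMain := by
  intro hCheb hBook hCount hBad ε hε
  obtain ⟨η, hη, t, hbook⟩ := hBook ε hε
  set δ : ℝ := ε / 8 with hδ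
  have hδ0 : 0 < δ := by positivity
  obtain ⟨n1, hn1⟩ := exists_nat_gt (4 / ε)
  obtain ⟨n2, hn2⟩ := exists_nat_gt ((t + 2 : ℝ) ^ 4 * 8 / (η ^ 2 * (4 * δ) ^ t))
  refine ⟨n1 + n2 + 1, ?_⟩
  intro n hn F hF
  by_contra hcon
  push Not at hcon
  have hn0 : 0 < n := by omega
  have h2n : 4 / ε < 2 ^ n := by
    have h1 : (n1 : ℝ) ≤ n := by exact_mod_cast (by omega : n1 ≤ n)
    have h2 : (n : ℝ) ≤ 2 ^ n := by exact_mod_cast (Nat.lt_two_pow_self).le
    linarith
  set m : ℝ := (#F : ℝ) with hm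
  have hm0 : 0 ≤ m := by positivity
  set NS : Finset (Finset (Fin (2 * n))) :=
    {S | ∃ A ∈ F, ∃ B ∈ F, A ∪ B = S ∧ ¬ QuasiRandom ε A B} with hNS
  -- card of the complement
  have hcompl : (#{S : Finset (Fin (2 * n)) | ∀ A ∈ F, ∀ B ∈ F, A ∪ B = S → QuasiRandom ε A B} : ℝ)
      = 4 ^ n - #NS := by
    have h1 : ({S : Finset (Fin (2 * n)) | ∀ A ∈ F, ∀ B ∈ F, A ∪ B = S → QuasiRandom ε A B} :
        Finset (Finset (Fin (2 * n)))) = NSᶜ := by
      ext S
      simp only [hNS, mem_filter, mem_univ, true_and, mem_compl, not_exists, not_and, not_not]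
    rw [h1, card_compl, Fintype.card_finset, Fintype.card_fin, Nat.cast_sub]
    · congr 1
      push_cast
      rw [pow_mul]; norm_num
    · have := card_le_univ NS
      rwa [Fintype.card_finset, Fintype.card_fin] at this
  rw [hcompl] at hcon
  have hNSbig : m ^ 2 / 4 + ε * 4 ^ n < #NS := by linarith
  have hNSle : (#NS : ℝ) ≤ 4 ^ n := by
    have := card_le_univ NS
    rw [Fintype.card_finset, Fintype.card_fin, pow_mul] at this
    have h2 : ((#NS : ℕ) : ℝ) ≤ (((2 ^ 2) ^ n : ℕ) : ℝ) := by exact_mod_cast this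
    push_cast at h2
    norm_num at h2
    exact h2
  have h4n : (4 : ℝ) ^ n = 2 ^ n * 2 ^ n := by rw [← mul_pow]; norm_num
  have h2pos : (0 : ℝ) < 2 ^ n := by positivity
  have hmlt : m < 2 * 2 ^ n := by
    have h1 : m ^ 2 < (2 * 2 ^ n) ^ 2 := by
      have : 0 < ε * 4 ^ n := by positivity
      have e : (2 * (2 : ℝ) ^ n) ^ 2 = 4 * 4 ^ n := by rw [h4n]; ring
      rw [e]; linarith
    exact lt_of_pow_lt_pow_left₀ 2 (by positivity) h1
  -- representations
  have hrep : ∀ S : Finset (Fin (2 * n)), ∃ p : Finset (Fin (2 * n)) × Finset (Fin (2 * n)),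
      S ∈ NS → p.1 ∈ F ∧ p.2 ∈ F ∧ p.1 ∪ p.2 = S ∧ ¬ QuasiRandom ε p.1 p.2 := by
    intro S
    by_cases hS : S ∈ NS
    · rw [hNS, mem_filter] at hS
      obtain ⟨A, hA, B, hB, h1, h2⟩ := hS.2
      exact ⟨(A, B), fun _ => ⟨hA, hB, h1, h2⟩⟩
    · exact ⟨(∅, ∅), fun h => absurd h hS⟩
  choose rep hrepS using hrep
  set R : Finset (Fin (2 * n)) → Finset (Fin (2 * n)) → Prop :=
    fun A B => A ≠ B ∧ ∃ S ∈ NS, rep S = (A, B) ∨ rep S = (B, A) with hR
  have hRF : ∀ A B, R A B → A ∈ F ∧ B ∈ F := by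
    rintro A B ⟨_, S, hS, h | h⟩
    · have := hrepS S hS
      rw [h] at this
      exact ⟨this.1, this.2.1⟩
    · have := hrepS S hS
      rw [h] at this
      exact ⟨this.2.1, this.1⟩
  have hRsymm : ∀ A B, R A B → R B A := by
    rintro A B ⟨hne, S, hS, h⟩
    exact ⟨hne.symm, S, hS, h.symm⟩
  have hRU : ∀ A B, R A B → A ∪ B ∈ NS ∧ (rep (A ∪ B) = (A, B) ∨ rep (A ∪ B) = (B, A)) := by
    rintro A B ⟨_, S, hS, h⟩
    have : A ∪ B = S := by
      have h1 := (hrepS S hS).2.2.1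
      rcases h with h | h
      · rw [h] at h1; exact h1
      · rw [h] at h1; rw [union_comm]; exact h1
    rw [this]; exact ⟨hS, h⟩
  have hRdet : ∀ A B A' B', R A B → R A' B' → A ∪ B = A' ∪ B' →
      (A = A' ∧ B = B') ∨ (A = B' ∧ B = A') := by
    intro A B A' B' h h' hU
    obtain ⟨_, h1⟩ := hRU A B h
    obtain ⟨_, h2⟩ := hRU A' B' h'
    rw [hU] at h1
    rcases h1 with h1 | h1 <;> rcases h2 with h2 | h2 <;> rw [h1] at h2 <;>
      simp only [Prod.mk.injEq] at h2
    · exact Or.inl h2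
    · exact Or.inr h2
    · exact Or.inr ⟨h2.2, h2.1⟩
    · exact Or.inl ⟨h2.2, h2.1⟩
  have hRqr : ∀ A B, R A B → ¬ QuasiRandom ε A B := by
    rintro A B ⟨_, S, hS, h⟩ hq
    have h1 := (hrepS S hS).2.2.2
    rcases h with h | h
    · rw [h] at h1; exact h1 hq
    · rw [h] at h1; exact h1 (qr_symm hq)
  -- number of ordered edges
  set V : Type := {A : Finset (Fin (2 * n)) // A ∈ F} with hV
  have hVcard : Fintype.card V = #F := Fintype.card_coe F
  have hedges : 2 * ((#NS : ℝ) - m) ≤ (#{p : V × V | R p.1.1 p.2.1} : ℝ) := by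
    set NS1 := NS.filter (fun S => (rep S).1 ≠ (rep S).2) with hNS1
    set NS0 := NS.filter (fun S => ¬ (rep S).1 ≠ (rep S).2) with hNS0
    have h1 : #NS0 ≤ #F := by
      apply card_le_card
      intro S hS
      rw [hNS0, mem_filter] at hS
      obtain ⟨hS1, hS2⟩ := hS
      push Not at hS2
      obtain ⟨k1, k2, k3, k4⟩ := hrepS S hS1
      rw [← hS2, union_self] at k3
      rw [← k3]; exact k1
    have h2 : #NS1 + #NS0 = #NS := card_filter_add_card_filter_not _
    have h3 : #(NS1 ×ˢ (univ : Finset Bool)) ≤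
        #((univ.filter fun p : V × V => R p.1.1 p.2.1).image (fun p => (p.1.1, p.2.1))) := by
      apply card_le_card_of_injOn
        (fun x : Finset (Fin (2 * n)) × Bool => if x.2 then rep x.1 else ((rep x.1).2, (rep x.1).1))
      · rintro ⟨S, b⟩ hx
        rw [mem_coe, mem_product, hNS1, mem_filter] at hx
        obtain ⟨⟨hS1, hS2⟩, _⟩ := hx
        obtain ⟨k1, k2, k3, k4⟩ := hrepS S hS1
        rw [mem_coe, mem_image]
        cases b with
        | true =>
          refine ⟨(⟨_, k1⟩, ⟨_, k2⟩), ?_, rfl⟩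
          rw [mem_filter]
          exact ⟨mem_univ _, hS2, S, hS1, Or.inl rfl⟩
        | false =>
          refine ⟨(⟨_, k2⟩, ⟨_, k1⟩), ?_, rfl⟩
          rw [mem_filter]
          exact ⟨mem_univ _, hS2.symm, S, hS1, Or.inr rfl⟩
      · rintro ⟨S, b⟩ hx ⟨S', b'⟩ hx' he
        rw [mem_coe, mem_product, hNS1, mem_filter] at hx hx'
        obtain ⟨⟨hS1, hS2⟩, _⟩ := hx
        obtain ⟨⟨hS1', hS2'⟩, _⟩ := hx'
        obtain ⟨k1, k2, k3, k4⟩ := hrepS S hS1
        obtain ⟨k1', k2', k3', k4'⟩ := hrepS S' hS1'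
        simp only at hS2 hS2' k3 k3' he
        cases b <;> cases b' <;> simp only [Bool.false_eq_true, if_false, if_true, Prod.ext_iff] at he
        · have : S = S' := by rw [← k3, ← k3', he.1, he.2]
          rw [this]
        · exfalso
          have : S = S' := by rw [← k3, ← k3', he.1, he.2, union_comm]
          subst this
          exact hS2 he.2
        · exfalso
          have : S = S' := by rw [← k3, ← k3', he.1, he.2, union_comm]
          subst this
          exact hS2 he.1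
        · have : S = S' := by rw [← k3, ← k3', he.1, he.2]
          rw [this]
    have h4 : #(NS1 ×ˢ (univ : Finset Bool)) = #NS1 * 2 := by simp
    have h5 := card_image_le (s := univ.filter fun p : V × V => R p.1.1 p.2.1)
      (f := fun p => (p.1.1, p.2.1))
    have h6 : #NS1 * 2 ≤ #(univ.filter fun p : V × V => R p.1.1 p.2.1) := by
      rw [← h4]; exact le_trans h3 h5
    have h7 : #NS * 2 ≤ #(univ.filter fun p : V × V => R p.1.1 p.2.1) + 2 * #F := by omega
    have h8 : (#NS : ℝ) * 2 ≤ (#(univ.filter fun p : V × V => R p.1.1 p.2.1) : ℝ) + 2 * #F := by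
      exact_mod_cast h7
    rw [hm]; linarith
  have hdens : m ^ 2 * (1 / 2 + 2 * δ) ≤ (#{p : V × V | R p.1.1 p.2.1} : ℝ) := by
    refine le_trans ?_ hedges
    have h1 : m ^ 2 ≤ 4 * 4 ^ n := by
      have : 0 < ε * 4 ^ n := by positivity
      linarith
    have h2 : 4 ≤ ε * 2 ^ n := by
      rw [div_lt_iff₀ hε] at h2n
      linarith
    have h3 : 4 * 2 ^ n ≤ ε * 4 ^ n := by
      rw [h4n]; nlinarith
    have h4 : m ^ 2 * (2 * δ) ≤ ε * 4 ^ n := by
      rw [hδ]
      have : m ^ 2 * (2 * (ε / 8)) = ε / 4 * m ^ 2 := by ring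
      rw [this]
      have : ε / 4 * m ^ 2 ≤ ε / 4 * (4 * 4 ^ n) := by gcongr
      linarith
    nlinarith
  -- books
  have hb := hCount V (fun x y => R x.1 y.1) (fun x y h => hRsymm _ _ h) (fun x h => h.1 rfl) δ hδ0 t
    (by rw [hVcard]; exact hdens)
  rw [hVcard] at hb
  set X : Finset ((Finset (Fin (2 * n)) × Finset (Fin (2 * n))) × (Fin t → Finset (Fin (2 * n)))) :=
    {q | R q.1.1 q.1.2 ∧ (∀ i, R (q.2 i) q.1.1 ∧ R (q.2 i) q.1.2)} with hX
  have hbX : (#{q : (V × V) × (Fin t → V) | R q.1.1.1 q.1.2.1 ∧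
        ∀ i, R (q.2 i).1 q.1.1.1 ∧ R (q.2 i).1 q.1.2.1} : ℝ) ≤ #X := by
    have : #{q : (V × V) × (Fin t → V) | R q.1.1.1 q.1.2.1 ∧
        ∀ i, R (q.2 i).1 q.1.1.1 ∧ R (q.2 i).1 q.1.2.1} ≤ #X := by
      apply card_le_card_of_injOn (fun q => ((q.1.1.1, q.1.2.1), fun i => (q.2 i).1))
      · intro q hq
        rw [mem_coe, mem_filter] at hq
        rw [mem_coe, hX, mem_filter]
        exact ⟨mem_univ _, hq.2⟩
      · rintro ⟨⟨a, b⟩, c⟩ _ ⟨⟨a', b'⟩, c'⟩ _ he
        simp only [Prod.mk.injEq] at he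
        obtain ⟨⟨h1, h2⟩, h3⟩ := he
        have e1 : a = a' := Subtype.ext h1
        have e2 : b = b' := Subtype.ext h2
        have e3 : c = c' := by
          funext i
          exact Subtype.ext (congrFun h3 i)
        rw [e1, e2, e3]
    exact_mod_cast this
  have hmpos : 0 < m := by
    obtain ⟨A, hA, _⟩ := hF ∅
    have : 0 < #F := card_pos.2 ⟨A, hA⟩
    rw [hm]; exact_mod_cast this
  have hsq : 2 ^ (2 * n) ≤ #F ^ 2 := by
    have h1 : (univ : Finset (Finset (Fin (2 * n)))) ⊆ (F ×ˢ F).image (fun p => p.1 ∪ p.2) := by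
      intro S _
      obtain ⟨A, hA, B, hB, h⟩ := hF S
      rw [mem_image]
      exact ⟨(A, B), mem_product.2 ⟨hA, hB⟩, h⟩
    have h2 := card_le_card h1
    rw [card_univ, Fintype.card_finset, Fintype.card_fin] at h2
    refine le_trans h2 (le_trans card_image_le ?_)
    rw [card_product, sq]
  have hnt : ∀ q ∈ X, ¬ TypicalBook η q.1.1 q.1.2 q.2 := by
    intro q hq htb
    rw [hX, mem_filter] at hq
    exact hRqr _ _ hq.2.1 (hbook (2 * n) (by omega) _ _ _ htb)
  have hbad := hBad (2 * n) t F R hRF hRsymm hRdet η hη (by omega) hsq hCheb X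
    (fun q hq => by rw [hX, mem_filter] at hq; exact hq.2) hnt
  have hfin := le_trans (le_trans hb hbX) hbad
  rw [← hm] at hfin
  have hpow : 0 < m ^ (t + 2) := by positivity
  have hfin2 := le_of_mul_le_mul_right hfin hpow
  have hnR : ((t + 2 : ℝ) ^ 4 * 8 / (η ^ 2 * (4 * δ) ^ t)) < n := by
    have : (n2 : ℝ) ≤ n := by exact_mod_cast (by omega : n2 ≤ n)
    linarith
  have hn0' : (0 : ℝ) < n := by exact_mod_cast hn0
  rw [div_lt_iff₀ (by positivity)] at hnR
  rw [le_div_iff₀ (by positivity)] at hfin2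
  push_cast at hfin2
  nlinarith

end Pool.Agent.Helper43.UB
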